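import Pool.Agent.LSG.StmtsA

/-!
# Squad LSG, row NPL: groups which are not precompact are l-stable
-/

set_option autoImplicit false

open MeasureTheory Set Topology
open scoped BigOperators Pointwise

namespace Pool.Agent.LSG.H45

/-- reindexing of a countable power by pairs -/
noncomputable def pairL (M : Type) [AddCommGroup M] [Module ℝ M] [TopologicalSpace M] :
    (ℕ → M) ≃L[ℝ] (ℕ → ℕ → M) where
  toFun f := fun i j => f (Nat.pair i j)
  invFun F := fun n => F n.unpair.1 n.unpair.2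
  map_add' _ _ := rfl
  map_smul' _ _ := rfl
  left_inv f := by
    funext n
    simp
  right_inv F := by
    funext i j
    simp
  continuous_toFun := by
    refine continuous_pi fun i => continuous_pi fun j => ?_
    exact continuous_apply _
  continuous_invFun := by
    refine continuous_pi fun n => ?_
    exact (continuous_apply n.unpair.2).comp (continuous_apply n.unpair.1)

theorem npl (h1 : NpcStmt) (h2 : CvrStmt) (h3 : CcvStmt) (h4 : PelStmt) (h5 : CexStmt)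
    (h6 : CpeStmt) (h7 : BriStmt) : NplStmt := by
  intro H _ _ _ _ _ hU A hA
  obtain ⟨V, g, hV, hVc, hdisj, hlf⟩ := h1 H hU
  have c1 : Compl ↥(Cp H) (ℕ → ↥(Cp V)) := h2 H V hV
  have c2 : Compl (ℕ → ↥(Cp V)) ↥(Cp H) := h3 H V g hVc hdisj hlf
  obtain ⟨e⟩ := (h4 (ℕ → ↥(Cp V)) ↥(Cp H) ⟨pairL ↥(Cp V)⟩).1 c2 c1
  have e2 : ↥(Cp H) ≃L[ℝ] (ℕ → ↥(Cp H)) :=
    (e.trans (pairL ↥(Cp V))).trans (ContinuousLinearEquiv.piCongrRight fun _ => e.symm)
  have c3 : Compl ↥(Cp A) ↥(Cp H) := h5.1 H A ((h7.2 H A).1 hA)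
  obtain ⟨e3⟩ := (h4 ↥(Cp H) ↥(Cp A) ⟨e2⟩).2 c3
  obtain ⟨e4⟩ := h6.2.1 H A
  exact (h7.1 H (H ⊕ A)).2 ⟨e3.trans e4.symm⟩

end Pool.Agent.LSG.H45
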